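import Pool.Agent.Y95.Q.Defs

/-!
# Automorphisms of cubic fourfolds: definitions
-/

set_option autoImplicit false

namespace Pool.Agent.Q138.CF

open Pool.Agent.Y95.Q Pool.Agent.Y95.Q.H4

/-- A linear automorphism of the cubic fourfold: an invertible linear map which preserves the
equation. -/
structure Aut (X : CubicFourfold) where
  /-- the linear map -/
  A : (Fin 6 → ℂ) ≃ₗ[ℂ] (Fin 6 → ℂ)
  inv : ∀ x, MvPolynomial.eval (A x) X.F = MvPolynomial.eval x X.F

variable {X : CubicFourfold}

/-- the determinant of the linear map; the automorphism acts on the line `H^{3,1}(X)` by it -/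
noncomputable def Aut.det (σ : Aut X) : ℂ := LinearMap.det (σ.A : (Fin 6 → ℂ) →ₗ[ℂ] (Fin 6 → ℂ))

/-- the image of a plane -/
noncomputable def Aut.move (σ : Aut X) (P : X.Plane) : X.Plane :=
  ⟨P.1.map (σ.A : (Fin 6 → ℂ) →ₗ[ℂ] (Fin 6 → ℂ)), by
    rw [LinearEquiv.finrank_map_eq]
    exact P.2.1, by
    rintro _ ⟨x, hx, rfl⟩
    exact (σ.inv x).trans (P.2.2 x hx)⟩

/-- the pairing of an integral class with the generator of `H^{3,1}` -/
noncomputable def per (H : H4 X) (v : Fin 23 → ℤ) : ℂ := ∑ i, ∑ j, (v i : ℂ) * H.B i j * H.ω j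

/-- The additive map `g` is the action (push forward) of the automorphism `σ` on the group
`H^4(X, ℤ)`: it preserves the intersection form and `h`, it multiplies the periods by the
determinant of `σ`, and it maps the class of a plane to the class of its image. -/
structure Pushes (H : H4 X) (σ : Aut X) (g : (Fin 23 → ℤ) →+ (Fin 23 → ℤ)) : Prop where
  isometry : ∀ u v, H.ip (g u) (g v) = H.ip u v
  map_h : g H.h = H.h
  period : ∀ v, per H (g v) = σ.det * per H v
  plane : ∀ P, g (H.cl P) = H.cl (σ.move P)

/-- The cohomology is functorial: every linear automorphism of `X` acts on it. -/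
def Functorial (H : H4 X) : Prop := ∀ σ : Aut X, ∃ g : (Fin 23 → ℤ) →+ (Fin 23 → ℤ), Pushes H σ g

/-- There is a Hodge class `v` such that `h` and `v` span a saturated group of discriminant `d > 6`
with `a ^ 2 * d = 2 * n ^ 2 + 2 * n + 2` for some integers `a` and `n`. By a theorem of Addington
this means that the variety `F(X)` of the lines in `X` is birational to the Hilbert square `S^[2]`
of a K3 surface `S`. -/
def HasHilb (H : H4 X) : Prop :=
  ∃ v, H.IsHodge v ∧ H.Saturated v ∧ 6 < H.disc v ∧
    ∃ a n : ℤ, a ^ 2 * H.disc v = 2 * n ^ 2 + 2 * n + 2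

end Pool.Agent.Q138.CF
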