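import Pool.Agent.Y95.Q.K3
import Pool.Agent.Q138.CF.Defs

/-!
# Automorphisms of cubic fourfolds and their planes
-/

set_option autoImplicit false

namespace Pool.Agent.Q138.CF

open Pool.Agent.Y95.Q Pool.Agent.Y95.Q.H4

variable {X : CubicFourfold}

section per

variable {H : H4 X}

theorem per_add (u v : Fin 23 → ℤ) : per H (u + v) = per H u + per H v := by
  unfold per
  rw [← Finset.sum_add_distrib]
  refine Finset.sum_congr rfl fun i _ => ?_
  rw [← Finset.sum_add_distrib]
  refine Finset.sum_congr rfl fun j _ => ?_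
  rw [Pi.add_apply]
  push_cast
  ring

theorem per_smul (n : ℤ) (v : Fin 23 → ℤ) : per H (n • v) = n * per H v := by
  unfold per
  rw [Finset.mul_sum]
  refine Finset.sum_congr rfl fun i _ => ?_
  rw [Finset.mul_sum]
  refine Finset.sum_congr rfl fun j _ => ?_
  rw [Pi.smul_apply, smul_eq_mul]
  push_cast
  ring

theorem per_sub (u v : Fin 23 → ℤ) : per H (u - v) = per H u - per H v := by
  have h := per_add (H := H) u ((-1 : ℤ) • v)
  rw [per_smul] at h
  have e : u + (-1 : ℤ) • v = u - v := by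
    rw [neg_one_smul]
    abel
  rw [e] at h
  rw [h]
  push_cast
  ring

theorem isHodge_iff (v : Fin 23 → ℤ) : H.IsHodge v ↔ per H v = 0 := Iff.rfl

end per

section

variable {H : H4 X}

/-- if `u` has even intersection with all classes, it is divisible by two -/
theorem half_of_even (hH : H.IsCohomology) {u : Fin 23 → ℤ} (h : ∀ x, Even (H.ip x u)) :
    ∃ w, u = (2 : ℤ) • w := by
  apply exists_half
  apply hH.mulVec_injective
  rw [Matrix.mulVec_zero]
  ext i
  have h1 := h (Pi.single i 1)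
  have h2 : H.ip (Pi.single i 1) u = ∑ j, H.B i j * u j := by
    unfold ip
    rw [Finset.sum_eq_single i]
    · simp
    · intro j _ hj
      simp [Pi.single_eq_of_ne hj]
    · simp
  rw [h2] at h1
  have h3 : ((∑ j, H.B i j * u j : ℤ) : ZMod 2) = 0 :=
    (ZMod.intCast_zmod_eq_zero_iff_dvd _ 2).2 h1.two_dvd
  rw [Pi.zero_apply, ← h3]
  push_cast
  rfl

variable {σ : Aut X} {g : (Fin 23 → ℤ) →+ (Fin 23 → ℤ)}

theorem Pushes.smul (n : ℤ) (v : Fin 23 → ℤ) : g (n • v) = n • g v := map_zsmul g n v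

theorem Pushes.isHodge (hg : Pushes H σ g) {v : Fin 23 → ℤ} (hv : H.IsHodge v) :
    H.IsHodge (g v) := by
  rw [isHodge_iff] at *
  rw [hg.period, hv, mul_zero]

theorem Pushes.isPl (hg : Pushes H σ g) {v : Fin 23 → ℤ} (hv : H.IsPl v) : H.IsPl (g v) := by
  refine ⟨hg.isHodge hv.1, ?_, ?_⟩
  · have := hg.isometry v H.h
    rw [hg.map_h] at this
    rw [this, hv.2.1]
  · rw [hg.isometry, hv.2.2]

/-- `h - P` is not divisible by two -/
theorem not_half (hH : H.IsCohomology) {P : Fin 23 → ℤ} (hP : H.IsPl P) {w : Fin 23 → ℤ} :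
    H.h - P ≠ (2 : ℤ) • w := by
  intro h
  have hw : H.IsHodge w := H.isHodge_of_smul two_ne_zero (by
    rw [← h]
    exact H.isHodge_sub hH.h_hodge hP.1)
  have h1 : 2 * H.ip w H.h = 2 := by
    rw [← ip_smul_left, ← h, ip_sub_left, hH.h_self, hP.2.1]
    norm_num
  have h2 : 4 * H.ip w w = 4 := by
    have : H.ip ((2 : ℤ) • w) ((2 : ℤ) • w) = 4 * H.ip w w := by
      rw [ip_smul_left, ip_smul_right]
      ring
    rw [← this, ← h]
    simp only [ip_sub_left, ip_sub_right, hH.h_self, hP.2.1, hP.2.2, hH.comm H.h P]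
    norm_num
  exact hH.disc_two w hw (by omega) (by omega)

/-- planes whose classes are congruent modulo two are equal -/
theorem eq_of_half (hH : H.IsCohomology) (hE : H.AllEven) {P Q w : Fin 23 → ℤ} (hP : H.IsPl P)
    (hQ : H.IsPl Q) (h : P - Q = (2 : ℤ) • w) : P = Q := by
  by_contra hne
  have hw : H.IsHodge w := H.isHodge_of_smul two_ne_zero (by
    rw [← h]
    exact H.isHodge_sub hP.1 hQ.1)
  have h1 : 2 * H.ip w H.h = 0 := by
    rw [← ip_smul_left, ← h, ip_sub_left, hQ.2.1, hP.2.1]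
    norm_num
  have h2 : 4 * H.ip w w = 6 - 2 * H.ip P Q := by
    have : H.ip ((2 : ℤ) • w) ((2 : ℤ) • w) = 4 * H.ip w w := by
      rw [ip_smul_left, ip_smul_right]
      ring
    rw [← this, ← h]
    simp only [ip_sub_left, ip_sub_right, hP.2.2, hQ.2.2, hH.comm Q P]
    ring
  have h3 := hH.char w
  have h5 : H.ip w H.h = 0 := by omega
  rw [h5, sub_zero] at h3
  rcases hH.pm hE hP hQ hne with h4 | h4
  · rw [h4] at h2
    have h6 : H.ip w w = 1 := by omega
    rw [h6] at h3
    exact absurd h3 (by decide)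
  · rw [h4] at h2
    exact hH.disc_six w hw h5 (by omega)

/-- **The symplectic and antisymplectic case.** -/
theorem fix_plane (hH : H.IsCohomology) (hE : H.AllEven) (hg : Pushes H σ g)
    (hdet : σ.det = 1 ∨ σ.det = -1) {P : Fin 23 → ℤ} (hP : H.IsPl P) : g P = P := by
  obtain ⟨ε, hε, hε'⟩ : ∃ ε : ℤ, (ε = 1 ∨ ε = -1) ∧ σ.det = ε := by
    rcases hdet with h | h
    · exact ⟨1, Or.inl rfl, by rw [h]; norm_num⟩
    · exact ⟨-1, Or.inr rfl, by rw [h]; norm_num⟩
  have h1 : ∀ x, Even (H.ip (g x - ε • x) (H.h - g P)) := by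
    intro x
    refine hE (g P) (hg.isPl hP) _ ?_
    rw [isHodge_iff, per_sub, per_smul, hg.period, hε']
    ring
  have h2 : ∀ x, Even (H.ip x (P - g P)) := by
    intro x
    have h3 := h1 x
    have h4 : H.ip (g x) (H.h - g P) = H.ip x (H.h - P) := by
      have := hg.isometry x (H.h - P)
      rwa [map_sub, hg.map_h] at this
    rw [ip_sub_left, ip_smul_left, h4] at h3
    have h5 : H.ip x (P - g P) = (H.ip x (H.h - g P)) - (H.ip x (H.h - P)) := by
      simp only [ip_sub_right]
      ring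
    rw [h5]
    obtain ⟨m, hm⟩ := h3
    rcases hε with rfl | rfl
    · exact ⟨-m, by omega⟩
    · exact ⟨m - H.ip x (H.h - P), by omega⟩
  obtain ⟨w, hw⟩ := half_of_even hH h2
  exact (eq_of_half hH hE hP (hg.isPl hP) hw).symm

/-- **Planes moved by automorphisms.** -/
theorem moved (hH : H.IsCohomology) (hg : Pushes H σ g) (hdet : σ.det = 1 ∨ σ.det = -1)
    (P : X.Plane) (hP : σ.move P ≠ P) : X.IsRational ∧ H.HasK3 := by
  refine hH.of_not_allEven fun hE => hP ?_
  apply hH.cl_injective
  rw [← hg.plane]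
  exact fix_plane hH hE hg hdet ((hH.cl_range _).1 ⟨P, rfl⟩)

/-- the sum of the translates of `x` is a Hodge class, if the determinant is a primitive third
root of unity -/
theorem Pushes.isHodge_sum3 (hg : Pushes H σ g) (h3 : σ.det ^ 2 + σ.det + 1 = 0)
    (x : Fin 23 → ℤ) : H.IsHodge (x + g x + g (g x)) := by
  rw [isHodge_iff, per_add, per_add, hg.period (g x), hg.period x]
  linear_combination (per H x) * h3

/-- **Order three.** -/
theorem three (hH : H.IsCohomology) (hE : H.AllEven) (hg : Pushes H σ g)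
    (h3 : σ.det ^ 2 + σ.det + 1 = 0) {P : Fin 23 → ℤ} (hP : H.IsPl P) :
    P + g P + g (g P) = H.h := by
  have hQ := hg.isPl hP
  have hR := hg.isPl hQ
  have hS := hg.isPl hR
  set Q := g P with hQd
  set R := g Q with hRd
  -- all classes
  have h1 : ∀ x, Even (H.ip x ((H.h - P) + (H.h - Q) + (H.h - R))) := by
    intro x
    have h2 := hE R hR _ (hg.isHodge_sum3 h3 x)
    have e1 : H.ip (g (g x)) (H.h - R) = H.ip x (H.h - P) := by
      have := hg.isometry (g x) (H.h - Q)
      rw [map_sub, hg.map_h] at this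
      rw [hRd, this]
      have := hg.isometry x (H.h - P)
      rw [map_sub, hg.map_h] at this
      rw [hQd, this]
    have e2 : H.ip (g x) (H.h - R) = H.ip x (H.h - Q) := by
      have := hg.isometry x (H.h - Q)
      rw [map_sub, hg.map_h] at this
      rw [hRd, this]
    rw [ip_add_left, ip_add_left, e1, e2] at h2
    rw [ip_add_right, ip_add_right]
    obtain ⟨m, hm⟩ := h2
    exact ⟨m, by omega⟩
  obtain ⟨w, hw⟩ := half_of_even hH h1
  have hz : H.h - P - Q - R = (2 : ℤ) • (w - H.h) := by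
    rw [smul_sub, ← hw, two_smul]
    abel
  have hne : P ≠ Q := by
    intro h
    have hR' : R = P := by rw [hRd, ← h, ← hQd, ← h]
    apply not_half hH hP (w := w - H.h + P)
    rw [smul_add, ← hz, hR', ← h, two_smul]
    abel
  have hs := hg.isometry P Q
  rw [← hQd, ← hRd] at hs
  have hw' : H.IsHodge (w - H.h) := H.isHodge_of_smul two_ne_zero (by
    rw [← hz]
    exact H.isHodge_sub (H.isHodge_sub (H.isHodge_sub hH.h_hodge hP.1) hQ.1) hR.1)
  -- the third intersection number
  have hne' : R ≠ P := by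
    intro h
    -- then `h - Q` is divisible by two
    apply not_half hH hQ (w := w - H.h + P)
    rw [smul_add, ← hz, h, two_smul]
    abel
  set z := w - H.h with hzd
  have a1 : 2 * H.ip z H.h = 0 := by
    rw [← ip_smul_left, ← hz]
    simp only [ip_sub_left, hH.h_self, hP.2.1, hQ.2.1, hR.2.1]
    norm_num
  have a2 : 4 * H.ip z z = 6 + 2 * (H.ip P Q + H.ip Q R + H.ip R P) := by
    have : H.ip ((2 : ℤ) • z) ((2 : ℤ) • z) = 4 * H.ip z z := by
      rw [ip_smul_left, ip_smul_right]
      ring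
    rw [← this, ← hz]
    simp only [ip_sub_left, ip_sub_right, hH.h_self, hP.2.1, hQ.2.1, hR.2.1, hP.2.2, hQ.2.2,
      hR.2.2, hH.comm H.h P, hH.comm H.h Q, hH.comm H.h R, hH.comm Q P, hH.comm R Q,
      hH.comm R P]
    ring
  have a3 := hH.char z
  have a4 : H.ip z H.h = 0 := by omega
  rw [a4, sub_zero] at a3
  have b1 := hH.pm hE hP hQ hne
  have b3 := hH.pm hE hR hP hne'
  rw [hs] at a2
  -- the norm is even, so it is zero, or two, which does not occur
  obtain ⟨m, hm⟩ := a3
  have a5 : H.ip z z ≠ 2 := hH.disc_six z hw' a4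
  have a6 : H.ip z z = 0 := by omega
  have a7 : z = 0 := by
    by_contra hcon
    have := hH.pos z hw' hcon
    omega
  rw [a7, smul_zero] at hz
  have : H.h - (P + Q + R) = 0 := by
    rw [← hz]
    abel
  exact (sub_eq_zero.1 this).symm

end

end Pool.Agent.Q138.CF
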