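import Pool.Agent.Q138.CF.Aut

/-!
# Cubic fourfolds with symmetric equations
-/

set_option autoImplicit false

namespace Pool.Agent.Q138.CF

open Pool.Agent.Y95.Q Pool.Agent.Y95.Q.H4

variable {X : CubicFourfold}

theorem moved' {H : H4 X} (hH : H.IsCohomology) (hF : Functorial H) (σ : Aut X)
    (hdet : σ.det = 1 ∨ σ.det = -1) (P : X.Plane) (hP : σ.move P ≠ P) :
    X.IsRational ∧ H.HasK3 := by
  obtain ⟨g, hg⟩ := hF σ
  exact moved hH hg hdet P hP

/-- the form is odd -/
theorem eval_neg (X : CubicFourfold) (x : Fin 6 → ℂ) :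
    MvPolynomial.eval (-x) X.F = - MvPolynomial.eval x X.F := by
  rw [MvPolynomial.eval_eq, MvPolynomial.eval_eq, ← Finset.sum_neg_distrib]
  refine Finset.sum_congr rfl fun d hd => ?_
  have h1 : (3 : ℕ) = ∑ i ∈ d.support, d i := by
    have := X.cubic.degree_eq_sum_deg_support hd
    simpa [Finsupp.degree] using this
  have h2 : ∏ i ∈ d.support, (-x) i ^ d i = - ∏ i ∈ d.support, x i ^ d i := by
    have h3 : ∀ i ∈ d.support, (-x) i ^ d i = (-1 : ℂ) ^ d i * x i ^ d i := by
      intro i _
      rw [Pi.neg_apply, ← mul_pow, neg_one_mul]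
    rw [Finset.prod_congr rfl h3, Finset.prod_mul_distrib, Finset.prod_pow_eq_pow_sum, ← h1]
    ring
  rw [h2]
  ring

/-- the space of the antiinvariant vectors -/
def anti (σ : Aut X) : Submodule ℂ (Fin 6 → ℂ) where
  carrier := {x | σ.A x = -x}
  add_mem' {x y} hx hy := by
    simp only [Set.mem_ofPred_eq] at *
    rw [map_add, hx, hy]
    abel
  zero_mem' := by simp
  smul_mem' c x hx := by
    simp only [Set.mem_ofPred_eq] at *
    rw [map_smul, hx, smul_neg]

theorem mem_anti (σ : Aut X) (x : Fin 6 → ℂ) : x ∈ anti σ ↔ σ.A x = -x := Iff.rfl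

/-- if it has dimension three, it is a plane in `X` -/
def antiPlane (σ : Aut X) (h : Module.finrank ℂ (anti σ) = 3) : X.Plane :=
  ⟨anti σ, h, fun x hx => by
    have h1 := σ.inv x
    rw [(mem_anti σ x).1 hx, eval_neg] at h1
    have h2 : (2 : ℂ) * MvPolynomial.eval x X.F = 0 := by linear_combination -h1
    exact (mul_eq_zero.1 h2).resolve_left two_ne_zero⟩

/-- **Two automorphisms.** -/
theorem two_aut {H : H4 X} (hH : H.IsCohomology) (hF : Functorial H) (σ τ : Aut X)
    (h3 : Module.finrank ℂ (anti σ) = 3) (hdet : τ.det = 1 ∨ τ.det = -1)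
    (hne : ∃ x, σ.A x = -x ∧ σ.A (τ.A x) ≠ -τ.A x) : X.IsRational ∧ H.HasK3 := by
  refine moved' hH hF τ hdet (antiPlane σ h3) fun h => ?_
  obtain ⟨x, hx, hx'⟩ := hne
  apply hx'
  have h1 : τ.A x ∈ (τ.move (antiPlane σ h3)).1 := ⟨x, (mem_anti σ x).2 hx, rfl⟩
  rw [h] at h1
  exact (mem_anti σ _).1 h1

/-- the automorphism given by a permutation of the coordinates which preserves the equation -/
noncomputable def permAut (X : CubicFourfold) (π : Equiv.Perm (Fin 6))
    (h : MvPolynomial.rename π X.F = X.F) : Aut X where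
  A := LinearEquiv.funCongrLeft ℂ ℂ π
  inv x := by
    have h1 : MvPolynomial.eval (x ∘ π) X.F = MvPolynomial.eval x (MvPolynomial.rename π X.F) :=
      (MvPolynomial.eval_rename π x X.F).symm
    rw [h] at h1
    exact h1

theorem permAut_apply (π : Equiv.Perm (Fin 6)) (h : MvPolynomial.rename π X.F = X.F)
    (x : Fin 6 → ℂ) (i : Fin 6) : (permAut X π h).A x i = x (π i) := rfl

theorem permAut_det (π : Equiv.Perm (Fin 6)) (h : MvPolynomial.rename π X.F = X.F) :
    (permAut X π h).det = 1 ∨ (permAut X π h).det = -1 := by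
  have h1 : (permAut X π h).det = (Equiv.Perm.sign π : ℤ) := by
    unfold Aut.det
    rw [← LinearMap.det_toMatrix']
    have e : LinearMap.toMatrix' ((permAut X π h).A : (Fin 6 → ℂ) →ₗ[ℂ] (Fin 6 → ℂ)) =
        (π.permMatrix ℂ) := by
      ext i j
      rw [LinearMap.toMatrix'_apply]
      change (Pi.single j (1 : ℂ) : Fin 6 → ℂ) (π i) = _
      simp [Equiv.Perm.permMatrix, Equiv.toPEquiv, PEquiv.toMatrix, Pi.single_apply, eq_comm]
    rw [e, Matrix.det_permutation]
  rw [h1]
  rcases Int.units_eq_one_or (Equiv.Perm.sign π) with h2 | h2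
  · left
    rw [h2]
    simp
  · right
    rw [h2]
    simp

/-- the permutation `(0 1) (2 3) (4 5)` -/
def pi0 : Equiv.Perm (Fin 6) := Equiv.swap 0 1 * Equiv.swap 2 3 * Equiv.swap 4 5

theorem pi0_ne (i : Fin 6) : pi0 i ≠ i := by
  revert i
  decide

theorem pi0_pi0 (i : Fin 6) : pi0 (pi0 i) = i := by
  revert i
  decide

theorem finrank_anti (h : MvPolynomial.rename pi0 X.F = X.F) :
    Module.finrank ℂ (anti (permAut X pi0 h)) = 3 := by
  have e : anti (permAut X pi0 h) ≃ₗ[ℂ] (Fin 3 → ℂ) :=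
    { toFun := fun x => ![x.1 0, x.1 2, x.1 4]
      map_add' := fun x y => by
        ext i
        fin_cases i <;> rfl
      map_smul' := fun c x => by
        ext i
        fin_cases i <;> rfl
      invFun := fun y => ⟨![y 0, -y 0, y 1, -y 1, y 2, -y 2], by
        rw [mem_anti]
        ext i
        rw [permAut_apply, Pi.neg_apply]
        fin_cases i <;> simp [pi0, Equiv.swap_apply_def]⟩
      left_inv := fun x => by
        have hx : ∀ i, x.1 (pi0 i) = -x.1 i := fun i => congrFun ((mem_anti _ _).1 x.2) i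
        apply Subtype.ext
        ext i
        have h0 := hx 0
        have h2 := hx 2
        have h4 := hx 4
        rw [show pi0 0 = 1 by decide] at h0
        rw [show pi0 2 = 3 by decide] at h2
        rw [show pi0 4 = 5 by decide] at h4
        fin_cases i <;> simp [h0, h2, h4]
      right_inv := fun y => by
        ext i
        fin_cases i <;> rfl }
  rw [e.finrank_eq]
  simp

/-- **Permutations of the coordinates.** -/
theorem perm_case {H : H4 X} (hH : H.IsCohomology) (hF : Functorial H)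
    (h0 : MvPolynomial.rename pi0 X.F = X.F) (τ : Equiv.Perm (Fin 6))
    (hτ : MvPolynomial.rename τ X.F = X.F) (hne : τ * pi0 ≠ pi0 * τ) :
    X.IsRational ∧ H.HasK3 := by
  refine two_aut hH hF (permAut X pi0 h0) (permAut X τ hτ) (finrank_anti h0)
    (permAut_det τ hτ) ?_
  obtain ⟨i, hi⟩ : ∃ i, τ (pi0 i) ≠ pi0 (τ i) := by
    by_contra hcon
    push Not at hcon
    exact hne (Equiv.ext hcon)
  refine ⟨Pi.single (τ i) 1 - Pi.single (pi0 (τ i)) 1, ?_, fun h => ?_⟩
  · ext j
    rw [permAut_apply]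
    simp only [Pi.sub_apply, Pi.neg_apply, Pi.single_apply]
    have e1 : (pi0 j = τ i) ↔ (j = pi0 (τ i)) :=
      ⟨fun h => by rw [← h, pi0_pi0], fun h => by rw [h, pi0_pi0]⟩
    have e2 : (pi0 j = pi0 (τ i)) ↔ (j = τ i) := pi0.injective.eq_iff
    simp only [e1, e2]
    ring
  · have h1 := congrFun h i
    rw [permAut_apply, permAut_apply, Pi.neg_apply, permAut_apply] at h1
    simp only [Pi.sub_apply, Pi.single_apply] at h1
    have e1 : τ (pi0 i) ≠ τ i := fun h => pi0_ne i (τ.injective h)
    have e2 : τ i ≠ pi0 (τ i) := (pi0_ne _).symm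
    rw [if_neg e1, if_neg hi, if_pos trivial, if_neg e2] at h1
    norm_num at h1

/-- **Symmetric equations.** -/
theorem symmetric_case {H : H4 X} (hH : H.IsCohomology) (hF : Functorial H)
    (hs : X.F.IsSymmetric) : X.IsRational ∧ H.HasK3 := by
  refine perm_case hH hF (hs pi0) (Equiv.swap 0 2) (hs _) fun h => ?_
  have := congrArg (fun e : Equiv.Perm (Fin 6) => e 0) h
  revert this
  decide

end Pool.Agent.Q138.CF
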