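import Pool.Agent.Q138.CF.Three
import Pool.Agent.Q138.CF.Sym

/-!
# Cubic fourfolds whose variety of lines is birational to the Hilbert square of a K3 surface
-/

set_option autoImplicit false

namespace Pool.Agent.Q138.CF

open Pool.Agent.Y95.Q Pool.Agent.Y95.Q.H4

variable {X : CubicFourfold}

variable {H : H4 X}

/-- the condition of Addington implies the condition of Hassett -/
theorem HasHilb.hasK3 (h : HasHilb H) : H.HasK3 := by
  obtain ⟨v, h1, h2, h3, a, n, h4⟩ := h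
  exact ⟨v, h1, h2, h3, four_not_dvd h4, nine_not_dvd h4,
    fun p hp hp2 hd => prime_mod h4 hp hp2 hd⟩

/-- a plane and an odd class -/
theorem hasHilb (hH : H.IsCohomology) {P T : Fin 23 → ℤ} (hP : H.IsPl P)
    (hT : H.IsHodge T) (hodd : Odd (H.ip T (H.h - P))) : HasHilb H := by
  set b : ℤ := 3 * H.ip P T - H.ip H.h T with hb
  have hbo : Odd b := by
    rw [ip_sub_right, hH.comm T H.h, hH.comm T P] at hodd
    have h1 : b = (H.ip H.h T - H.ip P T) + 2 * (2 * H.ip P T - H.ip H.h T) := by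
      rw [hb]
      ring
    rw [h1]
    exact hodd.add_even (even_two_mul _)
  obtain ⟨i, hi⟩ := hbo
  set j : ℤ := i ^ 2 + i with hj
  have hbj : b * b = 4 * j + 1 := by
    rw [hi, hj]
    ring
  obtain ⟨c, hc⟩ : Even (H.disc (b • T)) := by
    have h1 := hH.char (b • T)
    have h2 : H.ip (b • T) H.h = H.ip H.h (b • T) := hH.comm _ _
    rw [h2] at h1
    have h3 : H.disc (b • T) = 2 * H.ip (b • T) (b • T) +
        (H.ip (b • T) (b • T) - H.ip H.h (b • T)) +
        (H.ip H.h (b • T) - H.ip H.h (b • T) ^ 2) := by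
      simp only [disc]; ring
    rw [h3]
    refine Even.add (Even.add (even_two_mul _) h1) ?_
    have h4 : H.ip H.h (b • T) - H.ip H.h (b • T) ^ 2 =
        -(H.ip H.h (b • T) * (H.ip H.h (b • T) - 1)) := by ring
    rw [h4]
    exact (Int.even_mul_pred_self _).neg
  set x : ℤ := c - 1 - j - j ^ 2 with hx
  set n : ℤ := 2 * x + j with hn
  have hv : H.disc (x • P + b • T) = 2 * n ^ 2 + 2 * n + 2 := by
    have h1 : H.disc (x • P + b • T) = 8 * x ^ 2 + 2 * x * (b * b) + H.disc (b • T) := by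
      have hhP : H.ip H.h P = 1 := (hH.comm _ _).trans hP.2.1
      simp only [disc, ip_add_left, ip_add_right, ip_smul_left, ip_smul_right, hP.2.2, hhP,
        hH.comm T P, hb]
      ring
    rw [h1, hbj, hc, hn, hx]
    ring
  have hpos : 0 < H.disc (x • P + b • T) := by
    rw [hv]
    nlinarith [sq_nonneg (2 * n + 1)]
  have hvH : H.IsHodge (x • P + b • T) :=
    H.isHodge_add (H.isHodge_smul _ hP.1) (H.isHodge_smul _ hT)
  obtain ⟨w, m, l, hm, hsat, hw⟩ := hH.exists_saturated _ hpos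
  have hwH : H.IsHodge w := by
    refine H.isHodge_of_smul hm.ne' ?_
    have h1 : m • w = x • P + b • T - l • H.h := by
      rw [hw]
      abel
    rw [h1]
    exact H.isHodge_sub hvH (H.isHodge_smul _ hH.h_hodge)
  have hmw : m ^ 2 * H.disc w = 2 * n ^ 2 + 2 * n + 2 := by
    rw [← hv, hw, hH.disc_comb]
  have hw0 : 0 < H.disc w := by
    by_contra hcon
    push Not at hcon
    have : m ^ 2 * H.disc w ≤ 0 := mul_nonpos_of_nonneg_of_nonpos (by positivity) hcon
    rw [hmw, ← hv] at this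
    linarith
  exact ⟨w, hwH, hsat, hH.six_lt hwH hw0, m, n, hmw⟩

/-- from an odd class to the conclusion -/
theorem of_not_allEven (hH : H.IsCohomology) (h : ¬ H.AllEven) : X.IsRational ∧ HasHilb H := by
  unfold AllEven at h
  push Not at h
  obtain ⟨P, hP, T, hT, hodd⟩ := h
  rw [Int.not_even_iff_odd] at hodd
  obtain ⟨P', rfl⟩ := (hH.cl_range P).2 hP
  exact ⟨hH.hassett P' T hT hodd, hasHilb hH hP hT hodd⟩

/-- the cases -/
theorem hilb_planes (hH : H.IsCohomology)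
    (h : (∃ (P : X.Plane) (T : Fin 23 → ℤ), H.IsHodge T ∧ Odd (H.ip T (H.h - H.cl P))) ∨
      (12 ≤ Nat.card X.Plane ∧ Nat.card X.Plane ∉ ({13, 15, 17, 19, 21, 27} : Finset ℕ)) ∨
      (∃ P : X.Plane, 21 ≤ Nat.card {Q : X.Plane // H.ip (H.cl P) (H.cl Q) = -1}) ∨
      (∃ P : Fin 12 → X.Plane, ∀ i j, i ≠ j → H.ip (H.cl (P i)) (H.cl (P j)) = 1) ∨
      2 ^ (23 - H.rank) ≤ Nat.card X.Plane ∨
      (Nat.card X.Plane = 27 ∧
        ∃ P : X.Plane, Nat.card {Q : X.Plane // H.ip (H.cl P) (H.cl Q) = -1} ≠ 10)) :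
    X.IsRational ∧ HasHilb H := by
  refine of_not_allEven hH fun hE => ?_
  rcases h with ⟨P, T, hT, hodd⟩ | ⟨h12, hne⟩ | ⟨P, hP⟩ | ⟨P, hP⟩ | h | ⟨h27, P, hP⟩
  · exact (Int.not_even_iff_odd.2 hodd) (hE _ ((hH.cl_range _).1 ⟨P, rfl⟩) T hT)
  · obtain ⟨S, hS, hcard⟩ := hH.exists_finset (by omega)
    have h1 := hH.card_planes hE hS
    rw [hcard] at h1
    simp only [Finset.mem_insert, Finset.mem_singleton, not_or] at hne
    omega
  · obtain ⟨S, hS, hcard⟩ := hH.exists_finset_adj P (Nat.finite_of_card_ne_zero (by omega))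
    have h1 := hH.card_adj hE ((hH.cl_range _).1 ⟨P, rfl⟩) hS
    rw [hcard] at h1
    omega
  · exact hH.twelve hE (δ := 1) (Or.inl rfl) (P0 := H.cl (P 0)) (P := fun j => H.cl (P j.succ))
      ((hH.cl_range _).1 ⟨_, rfl⟩) (fun j => (hH.cl_range _).1 ⟨_, rfl⟩)
      (fun j => hP _ _ (Fin.succ_ne_zero j).symm)
      (fun i j hij => hP _ _ fun h' => hij (Fin.succ_injective _ h'))
  · have h0 : 0 < 2 ^ (23 - H.rank) := by positivity
    obtain ⟨S, hS, hcard⟩ := hH.exists_finset (by omega)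
    have h1 := hH.card_rank hE (fun v hv => (hS v).1 hv)
    rw [hcard] at h1
    omega
  · have hfin : Finite X.Plane := Nat.finite_of_card_ne_zero (by omega)
    obtain ⟨S, hS, hcard⟩ := hH.exists_finset (by omega)
    obtain ⟨S', hS', hcard'⟩ := hH.exists_finset_adj P inferInstance
    have h1 := hH.card_27 hE hS (hcard.trans h27) ((hH.cl_range _).1 ⟨P, rfl⟩) hS'
    exact hP (hcard'.symm.trans h1)

/-- automorphisms -/
theorem hilb_aut (hH : H.IsCohomology) (hF : Functorial H) (σ : Aut X)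
    (h : ((σ.det = 1 ∨ σ.det = -1) ∧ ∃ P : X.Plane, σ.move P ≠ P) ∨
      (σ.det ^ 2 + σ.det + 1 = 0 ∧
        ∃ P : X.Plane, H.ip (H.cl P) (H.cl (σ.move P)) ≠ -1)) :
    X.IsRational ∧ HasHilb H := by
  obtain ⟨g, hg⟩ := hF σ
  refine of_not_allEven hH fun hE => ?_
  rcases h with ⟨hdet, P, hP⟩ | ⟨h3, P, hP⟩
  · apply hP
    apply hH.cl_injective
    rw [← hg.plane]
    exact fix_plane hH hE hg hdet ((hH.cl_range _).1 ⟨P, rfl⟩)
  · apply hP
    rw [← hg.plane]
    exact (tri_orbit hH hE hg h3 ((hH.cl_range _).1 ⟨P, rfl⟩)).1.ab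

end Pool.Agent.Q138.CF
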