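import Pool.Agent.Q138.CF.Aut

/-!
# Automorphisms of cubic fourfolds whose determinant is a primitive third root of unity
-/

set_option autoImplicit false

namespace Pool.Agent.Q138.CF

open Pool.Agent.Y95.Q Pool.Agent.Y95.Q.H4

variable {X : CubicFourfold} {H : H4 X} {σ : Aut X} {g : (Fin 23 → ℤ) →+ (Fin 23 → ℤ)}

/-- the orbit of a plane is a triangle -/
theorem tri_orbit (hH : H.IsCohomology) (hE : H.AllEven) (hg : Pushes H σ g)
    (h3 : σ.det ^ 2 + σ.det + 1 = 0) {P : Fin 23 → ℤ} (hP : H.IsPl P) :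
    H.Tri P (g P) (g (g P)) ∧ g (g (g P)) = P := by
  have e1 := three hH hE hg h3 hP
  have e2 := three hH hE hg h3 (hg.isPl hP)
  have hQ := hg.isPl hP
  have hR := hg.isPl hQ
  have hs := hg.isometry P (g P)
  have b1 : H.ip (g P) (P + g P + g (g P)) = 1 := by rw [e1, hQ.2.1]
  rw [ip_add_right, ip_add_right, hQ.2.2, hs, hH.comm (g P) P] at b1
  have b2 : H.ip P (P + g P + g (g P)) = 1 := by rw [e1, hP.2.1]
  rw [ip_add_right, ip_add_right, hP.2.2] at b2
  have b3 : H.ip P (g P) = -1 := by omega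
  refine ⟨⟨hP, hQ, hR, b3, by omega, by rw [hs, b3], e1⟩, ?_⟩
  have e3 : g P + g (g P) + g (g (g P)) = P + g P + g (g P) := by rw [e1, e2]
  have e4 : g (g (g P)) - P = 0 := by
    have : g (g (g P)) - P = (g P + g (g P) + g (g (g P))) - (P + g P + g (g P)) := by abel
    rw [this, e3, sub_self]
  exact sub_eq_zero.1 e4

/-- the action is injective on Hodge classes -/
theorem Pushes.inj (hH : H.IsCohomology) (hg : Pushes H σ g) {u v : Fin 23 → ℤ}
    (hu : H.IsHodge u) (hv : H.IsHodge v) (h : g u = g v) : u = v := by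
  by_contra hne
  have h1 := hH.pos (u - v) (H.isHodge_sub hu hv) (sub_ne_zero.2 hne)
  rw [← hg.isometry, map_sub, h, sub_self, ip_zero_left] at h1
  exact absurd h1 (lt_irrefl _)

/-- the action on the classes of a triangle -/
theorem Pushes.inCls (hH : H.IsCohomology) (hg : Pushes H σ g) {A B C x : Fin 23 → ℤ}
    (ht : H.Tri A B C) (hx : H.InCls A B C x) : H.InCls (g A) (g B) (g C) (g x) := by
  refine ⟨hg.isPl hx.1, fun h => hx.2.1 ?_, fun h => hx.2.2.1 ?_, ?_⟩
  · exact hg.inj hH hx.1.1 ht.b.1 h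
  · exact hg.inj hH hx.1.1 ht.c.1 h
  · rw [hg.isometry, hx.2.2.2]

/-- **The number of the planes**, for order three -/
theorem three_card (hH : H.IsCohomology) (hE : H.AllEven) (hg : Pushes H σ g)
    (h3 : σ.det ^ 2 + σ.det + 1 = 0) {S : Finset (Fin 23 → ℤ)} (hS : ∀ v, v ∈ S ↔ H.IsPl v) :
    S.card ∈ ({0, 3, 9, 15, 21, 27} : Finset ℕ) := by
  classical
  rcases S.eq_empty_or_nonempty with h | ⟨P, hP⟩
  · simp [h]
  rw [hS] at hP
  obtain ⟨ht, hgg⟩ := tri_orbit hH hE hg h3 hP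
  have t2 := ht.rot hH
  have t3 := t2.rot hH
  have hc := card_decomp hH hE hS ht
  obtain ⟨a, ha⟩ := cls_even hH (fun x => mem_cls hS) ht
  obtain ⟨b, hb⟩ := cls_even hH (fun x => mem_cls hS) t2
  obtain ⟨c, hc'⟩ := cls_even hH (fun x => mem_cls hS) t3
  have g1 := fun h => cls_ten hH hE hS ht h
  have g2 := fun h => cls_ten hH hE hS t2 h
  have g3 := fun h => cls_ten hH hE hS t3 h
  have hne : ∀ {A B C : Fin 23 → ℤ}, (H.cls S A B C).card ≠ 0 → ∃ x, H.InCls A B C x := by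
    intro A B C h
    obtain ⟨x, hx⟩ := Finset.card_pos.1 (Nat.pos_of_ne_zero h)
    exact ⟨x, (mem_cls hS).1 hx⟩
  have hne' : ∀ {A B C : Fin 23 → ℤ}, (∃ x, H.InCls A B C x) → (H.cls S A B C).card ≠ 0 := by
    rintro A B C ⟨x, hx⟩
    exact (Finset.card_pos.2 ⟨x, (mem_cls hS).2 hx⟩).ne'
  have m1 : (H.cls S P (g P) (g (g P))).card ≠ 0 → (H.cls S (g P) (g (g P)) P).card ≠ 0 := by
    intro h
    obtain ⟨x, hx⟩ := hne h
    have := hg.inCls hH ht hx
    rw [hgg] at this
    exact hne' ⟨_, this⟩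
  have m2 : (H.cls S (g P) (g (g P)) P).card ≠ 0 → (H.cls S (g (g P)) P (g P)).card ≠ 0 := by
    intro h
    obtain ⟨x, hx⟩ := hne h
    have := hg.inCls hH t2 hx
    rw [hgg] at this
    exact hne' ⟨_, this⟩
  have m3 : (H.cls S (g (g P)) P (g P)).card ≠ 0 → (H.cls S P (g P) (g (g P))).card ≠ 0 := by
    intro h
    obtain ⟨x, hx⟩ := hne h
    have := hg.inCls hH t3 hx
    rw [hgg] at this
    exact hne' ⟨_, this⟩
  have k1 : (H.cls S P (g P) (g (g P))).card ≠ 0 →
      (H.cls S (g P) (g (g P)) P).card = (H.cls S (g (g P)) P (g P)).card := by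
    intro h
    obtain ⟨x, hx⟩ := hne h
    exact cls_card_eq hH hE hS ht hx
  have k2 : (H.cls S (g P) (g (g P)) P).card ≠ 0 →
      (H.cls S (g (g P)) P (g P)).card = (H.cls S P (g P) (g (g P))).card := by
    intro h
    obtain ⟨x, hx⟩ := hne h
    exact cls_card_eq hH hE hS t2 hx
  have k3 : (H.cls S (g (g P)) P (g P)).card ≠ 0 →
      (H.cls S P (g P) (g (g P))).card = (H.cls S (g P) (g (g P)) P).card := by
    intro h
    obtain ⟨x, hx⟩ := hne h
    exact cls_card_eq hH hE hS t3 hx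
  simp only [Finset.mem_insert, Finset.mem_singleton]
  omega

/-- **Determinants of order three.** -/
theorem order_three (hH : H.IsCohomology) (hg : Pushes H σ g)
    (h3 : σ.det ^ 2 + σ.det + 1 = 0)
    (h : (∃ P : X.Plane, H.ip (H.cl P) (H.cl (σ.move P)) ≠ -1) ∨
      Nat.card X.Plane ∉ ({0, 3, 9, 15, 21, 27} : Finset ℕ)) : X.IsRational ∧ H.HasK3 := by
  refine hH.of_not_allEven fun hE => ?_
  rcases h with ⟨P, hP⟩ | h
  · apply hP
    rw [← hg.plane]
    exact (tri_orbit hH hE hg h3 ((hH.cl_range _).1 ⟨P, rfl⟩)).1.ab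
  · have h0 : Nat.card X.Plane ≠ 0 := by
      intro h0
      rw [h0] at h
      exact h (by decide)
    obtain ⟨S, hS, hcard⟩ := hH.exists_finset h0
    have := three_card hH hE hg h3 hS
    rw [hcard] at this
    exact h this

end Pool.Agent.Q138.CF
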